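import Pool.Agent.Helper25.P2.Mix
import Pool.Agent.Helper15.BP.Sec

/-!
# Chains of sums of copies of a family (phase 2, Lemma E)

`A.chG j` is the family `(Y_{j+1} | Y₁+Y₂, …, Y_j+Y_{j+1}, J)` (with values in `G`) and
`A.EN j` is the deficiency of the chain `(Y₁+Y₂, …, Y_j+Y_{j+1})` in `G ^ j`.
-/

set_option autoImplicit false

namespace Pool.Agent.Helper15.BP

open Finset

namespace Fam

/-- `(Y_{j+1} | Y₁+Y₂, …, Y_j+Y_{j+1}, J)` -/
def chG {G : Type} [AddCommGroup G] (A : Fam G) : ℕ → Fam G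
  | 0 => A
  | j + 1 => A.fib (chG A j)

/-- deficiency of the chain `(Y₁+Y₂, …, Y_j+Y_{j+1})` -/
noncomputable def EN {G : Type} [AddCommGroup G] (A : Fam G) : ℕ → ℝ
  | 0 => 0
  | j + 1 => EN A j + ((A.chG j).add A).D ⊥

variable {G : Type} [AddCommGroup G]

theorem chG_zero (A : Fam G) : A.chG 0 = A := rfl

theorem chG_succ (A : Fam G) (j : ℕ) : A.chG (j + 1) = A.fib (A.chG j) := rfl

theorem EN_zero (A : Fam G) : A.EN 0 = 0 := rfl

theorem EN_succ (A : Fam G) (j : ℕ) : A.EN (j + 1) = A.EN j + ((A.chG j).add A).D ⊥ := rfl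

theorem EN_nonneg [Finite G] (A : Fam G) (j : ℕ) : 0 ≤ A.EN j := by
  induction j with
  | zero => exact le_rfl
  | succ j ih =>
    rw [EN_succ]
    exact add_nonneg ih (D_nonneg _ _)

theorem EN_le_mul [Finite G] (A : Fam G) (j : ℕ) : A.EN j ≤ j * A.D ⊥ := by
  induction j with
  | zero => rw [EN_zero]; simp
  | succ j ih =>
    rw [EN_succ]
    have h := D_add_le' (A.chG j) A ⊥
    push_cast
    linarith

theorem Sim.chG {A A' : Fam G} (h : Sim A A') (j : ℕ) : Sim (A.chG j) (A'.chG j) := by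
  induction j with
  | zero => exact h
  | succ j ih => exact Sim.fib h ih

theorem Sim.EN_eq {A A' : Fam G} (h : Sim A A') (j : ℕ) : A.EN j = A'.EN j := by
  induction j with
  | zero => rfl
  | succ j ih => rw [EN_succ, EN_succ, ih, (Sim.add (h.chG j) h).D_eq]

theorem chG_resV (A : Fam G) (H : AddSubgroup G) (j : ℕ) :
    Sim ((A.chG j).resV H) ((A.resV H).chG j) := by
  induction j with
  | zero => exact Sim.refl _
  | succ j ih =>
    exact (Sim.fib_resV A (A.chG j) H).trans (Sim.fib (Sim.refl _) ih)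

/-- the deficiency of the last variable of the chain -/
theorem chG_D [Finite G] (A : Fam G) (H : AddSubgroup G) (j : ℕ) :
    (A.chG j).D H = (j + 1) * A.D H + (A.resV H).EN j - A.EN j := by
  induction j with
  | zero =>
    rw [chG_zero, EN_zero, EN_zero]
    push_cast
    ring
  | succ j ih =>
    rw [chG_succ, fib_D_general, ih, EN_succ, EN_succ]
    have h1 : ((A.resV H).add ((A.chG j).resV H)).D ⊥ =
        (((A.resV H).chG j).add (A.resV H)).D ⊥ := by
      rw [D_add_comm]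
      exact (Sim.add (chG_resV A H j) (Sim.refl _)).D_eq ⊥
    have h2 : (A.add (A.chG j)).D ⊥ = ((A.chG j).add A).D ⊥ := D_add_comm _ _ _
    rw [h1, h2]
    push_cast
    ring

theorem fib_D_ge [Finite G] (A B : Fam G) (H : AddSubgroup G) : A.D H ≤ (A.fib B).D H := by
  have h1 := fib_D_general A B H
  have h2 := add_le_mod_res A B H
  rw [add_D_mod] at h2
  have h3 := D_add_le' A B H
  linarith

theorem chG_D_ge [Finite G] (A : Fam G) (H : AddSubgroup G) (j : ℕ) :
    A.D H ≤ (A.chG j).D H := by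
  cases j with
  | zero => exact le_rfl
  | succ j => exact fib_D_ge _ _ _

/-- splitting the deficiency of the chain -/
theorem EN_le [Finite G] (A : Fam G) (K : AddSubgroup G) (j : ℕ) :
    A.EN j ≤ j * A.D K + (A.resV K).EN j := by
  have h1 := chG_D A K j
  have h2 := chG_D_ge A K j
  linarith

theorem chG_D_bot_le [Finite G] (A : Fam G) (j : ℕ) :
    (A.chG j).D ⊥ ≤ (j + 1) * A.D ⊥ := by
  have h1 := chG_D A ⊥ j
  have h2 := EN_le_mul (A.resV ⊥) j
  rw [resV_D_bot, sub_self, mul_zero] at h2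
  have h3 := EN_nonneg A j
  linarith

end Fam

open Fam

/-- `ENB c₀ e j`: in exponent two, families of slope at most `c₀` have `EN j ≤ e D` -/
def ENB (c₀ e : ℝ) (j : ℕ) : Prop :=
  ∀ (G : Type) [AddCommGroup G] [Finite G], (∀ x : G, x + x = 0) → ∀ A : Fam G,
    (∀ K : AddSubgroup G, A.D K ≤ c₀ * Real.log K.index) → A.EN j ≤ e * A.D ⊥

theorem ENB_zero (c₀ : ℝ) : ENB c₀ 0 0 := by
  intro G _ _ _ A _
  rw [EN_zero, zero_mul]

theorem ENB_trivial (c₀ : ℝ) (j : ℕ) : ENB c₀ j j := by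
  intro G _ _ _ A _
  exact EN_le_mul A j

theorem ENB.mono {c₀ e e' : ℝ} {j : ℕ} (h : ENB c₀ e j) (he : e ≤ e') : ENB c₀ e' j := by
  intro G _ _ h2 A hA
  exact (h G h2 A hA).trans (mul_le_mul_of_nonneg_right he (A.D_nonneg ⊥))

theorem log_index_nn {G : Type} [AddCommGroup G] [Finite G] (H : AddSubgroup G) :
    0 ≤ Real.log H.index := by
  apply Real.log_nonneg
  have : H.index ≠ 0 := AddSubgroup.index_ne_zero_of_finite
  exact_mod_cast Nat.one_le_iff_ne_zero.2 this

theorem log_index_top' {G : Type} [AddCommGroup G] :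
    Real.log ((⊤ : AddSubgroup G).index) = 0 := by
  rw [AddSubgroup.index_top, Nat.cast_one, Real.log_one]

/-- exponent two passes to subgroups -/
theorem exp_two_sub {G : Type} [AddCommGroup G] (h2 : ∀ x : G, x + x = 0) (V : AddSubgroup G)
    (x : V) : x + x = 0 := Subtype.ext (h2 x)

/-- for a maximiser of `D - k log index`, the conditioned family has slopes at most `k` -/
theorem resV_slope {G : Type} [AddCommGroup G] [Finite G] (A : Fam G) (k : ℝ)
    (H : AddSubgroup G)
    (hmax : ∀ K : AddSubgroup G, A.D K - k * Real.log K.index ≤ A.D H - k * Real.log H.index)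
    (L : AddSubgroup H) : (A.resV H).D L ≤ k * Real.log L.index := by
  rw [resV_D]
  have h1 := hmax (L.map H.subtype)
  have h2 := log_index_map H L
  rw [h2] at h1
  linarith

/-- the maximal slope subgroup of a family and the chain -/
theorem exists_HX {c₀ e : ℝ} {j : ℕ} (he : 0 ≤ e) (hE : ENB c₀ e j) {G : Type} [AddCommGroup G]
    [Finite G] (h2 : ∀ x : G, x + x = 0) (A : Fam G) :
    ∃ H : AddSubgroup G, (∀ K : AddSubgroup G,
        A.D K - c₀ * Real.log K.index ≤ A.D H - c₀ * Real.log H.index) ∧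
      A.EN j ≤ j * A.D H + e * A.D ⊥ := by
  classical
  obtain ⟨H, hH⟩ := Finite.exists_max fun K : AddSubgroup G => A.D K - c₀ * Real.log K.index
  refine ⟨H, hH, ?_⟩
  have h3 := EN_le A H j
  have h4 := hE H (exp_two_sub h2 H) (A.resV H) (resV_slope A c₀ H hH)
  rw [resV_D_bot] at h4
  have h5 := mul_nonneg he (A.D_nonneg H)
  linarith

/-- **Lemma E, one step.** -/
theorem ENB_succ {c₀ e e' s : ℝ} {j : ℕ} (he' : 0 ≤ e') (hs : 0 ≤ s)
    (h1 : ENB c₀ e j) (h2 : ENB (2 * c₀) e' j) (hC : Contr (2 * (j + 1) * c₀) s) :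
    ENB c₀ (e + 2 * e' + (j + 2) * s) (j + 1) := by
  classical
  intro G _ _ hx A hA
  have hhalf0 : (0 : ℝ) ≤ 1 / 2 := by norm_num
  have hhalf1 : (1 / 2 : ℝ) ≤ 1 := by norm_num
  set U := mixF (1 / 2) hhalf0 hhalf1 (A.chG j) A with hU
  set k' : ℝ := 2 * (j + 1) * c₀ with hk'
  obtain ⟨H, hH⟩ := Finite.exists_max fun K : AddSubgroup G => U.D K - k' * Real.log K.index
  have hUD : ∀ K, U.D K = 1 / 2 * (A.chG j).D K + 1 / 2 * A.D K := by
    intro K
    rw [hU, mixF_D]
    ring
  -- (a) contraction above `H`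
  have ha : (U.add U).D ⊥ ≤ U.D H + s * (U.D ⊥ - U.D H) := by
    have h3 := D_two_le U (bot_le : (⊥ : AddSubgroup G) ≤ H)
    have h4 := U.D_add_le U H
    have h5 := secD_section hC U (bot_le : (⊥ : AddSubgroup G) ≤ H)
      (fun x _ => by rw [AddSubgroup.mem_bot]; exact hx x) (fun K _ _ => by
        have := hH K
        linarith)
    linarith
  -- (b) the mixed term
  have hb : 1 / 2 * ((A.chG j).add A).D ⊥ ≤ (U.add U).D ⊥ := by
    rw [hU, mix_mix_D]
    have h3 := ((A.chG j).add (A.chG j)).D_nonneg ⊥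
    have h4 := (A.add A).D_nonneg ⊥
    nlinarith
  -- (c) total deficiency of the mixture
  have hD0 := A.D_nonneg ⊥
  have hc : U.D ⊥ ≤ (j + 2) / 2 * A.D ⊥ := by
    rw [hUD]
    have h3 := chG_D_bot_le A j
    linarith
  -- (d) the subgroup of high slope
  have hd : U.D H ≤ e' * A.D ⊥ := by
    set B := A.resV H with hB
    obtain ⟨K, hK⟩ := Finite.exists_max fun K : AddSubgroup H =>
      B.D K - 2 * c₀ * Real.log K.index
    have hKtop := hK ⊤
    simp only [D_top, log_index_top', mul_zero, sub_zero] at hKtop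
    have hBK : B.D K = A.D (K.map H.subtype) - A.D H := resV_D A H K
    have h3 := hA (K.map H.subtype)
    rw [log_index_map] at h3
    have hAH := hA H
    have hAH0 := A.D_nonneg H
    have h4 : B.D K ≤ 2 * c₀ * Real.log H.index - 2 * A.D H := by
      have h5 : c₀ * (Real.log K.index + Real.log H.index) =
        c₀ * Real.log K.index + c₀ * Real.log H.index := by ring
      rw [h5] at h3
      linarith
    have h5 := EN_le B K j
    have h6 := h2 K (exp_two_sub (exp_two_sub hx H) K) (B.resV K) (resV_slope B (2 * c₀) K hK)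
    rw [resV_D_bot] at h6
    have hBbot : B.D ⊥ = A.D ⊥ - A.D H := resV_D_bot A H
    have h7 := mul_nonneg he' (B.D_nonneg K)
    have h8 := mul_nonneg he' hAH0
    have h9 : B.EN j ≤ j * (2 * c₀ * Real.log H.index - 2 * A.D H) + e' * A.D ⊥ := by
      have h10 : (j : ℝ) * B.D K ≤ j * (2 * c₀ * Real.log H.index - 2 * A.D H) :=
        mul_le_mul_of_nonneg_left h4 (Nat.cast_nonneg j)
      rw [hBbot] at h6
      have h11 : e' * (A.D ⊥ - A.D H - B.D K) = e' * A.D ⊥ - e' * A.D H - e' * B.D K := by ring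
      rw [h11] at h6
      linarith
    have h10 := chG_D A H j
    have h11 := EN_nonneg A j
    have h12 := hH ⊤
    simp only [D_top, log_index_top', mul_zero, sub_zero] at h12
    have h13 := hUD H
    have h14 : (0 : ℝ) ≤ j * A.D H := mul_nonneg (Nat.cast_nonneg j) hAH0
    -- `U.D H ≤ (j+1) c₀ log index + e' D / 2`
    have h15 : U.D H ≤ (j + 1) * (c₀ * Real.log H.index) + 1 / 2 * (e' * A.D ⊥) := by
      have h16 : (A.chG j).D H ≤ (j + 1) * A.D H +
          (j * (2 * c₀ * Real.log H.index - 2 * A.D H) + e' * A.D ⊥) := by linarith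
      have h17 : (j + 1) * A.D H + (j * (2 * c₀ * Real.log H.index - 2 * A.D H) + e' * A.D ⊥) =
          A.D H - j * A.D H + 2 * (j * (c₀ * Real.log H.index)) + e' * A.D ⊥ := by ring
      rw [h17] at h16
      have h18 : ((j : ℝ) + 1) * (c₀ * Real.log H.index) =
        j * (c₀ * Real.log H.index) + c₀ * Real.log H.index := by ring
      rw [h13, h18]
      linarith
    have h16 : k' * Real.log H.index = 2 * ((j + 1) * (c₀ * Real.log H.index)) := by
      rw [hk']; ring
    rw [h16] at h12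
    linarith
  -- conclusion
  have hUH0 := U.D_nonneg H
  have h3 := h1 G hx A hA
  rw [EN_succ]
  have h4 : s * (U.D ⊥ - U.D H) ≤ s * ((j + 2) / 2 * A.D ⊥) :=
    mul_le_mul_of_nonneg_left (by linarith) hs
  have h5 : (e + 2 * e' + (j + 2) * s) * A.D ⊥ =
      e * A.D ⊥ + 2 * (e' * A.D ⊥) + 2 * (s * ((j + 2) / 2 * A.D ⊥)) := by ring
  rw [h5]
  linarith

/-- **Lemma E** with a power law. -/
theorem ENB_power {C c : ℝ} (hC0 : 0 ≤ C) (hc0 : 0 < c)
    (hC : ∀ κ : ℝ, 0 < κ → κ ≤ 1 → Contr κ (C * κ ^ c)) (j : ℕ) :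
    ∃ M : ℝ, 0 ≤ M ∧ ∀ c₀ : ℝ, 0 < c₀ → ENB c₀ (M * c₀ ^ c) j := by
  induction j with
  | zero =>
    exact ⟨0, le_rfl, fun c₀ _ => by rw [zero_mul]; exact ENB_zero c₀⟩
  | succ j ih =>
    obtain ⟨M, hM0, hM⟩ := ih
    have hj : (0 : ℝ) < 2 * (j + 1) := by positivity
    set a : ℝ := (2 * ((j : ℝ) + 1)) ^ c with ha
    have ha0 : 0 < a := Real.rpow_pos_of_pos hj c
    have h20 : (0 : ℝ) < 2 ^ c := Real.rpow_pos_of_pos (by norm_num) c
    refine ⟨(M + 2 * (M * 2 ^ c) + (j + 2) * (C * a)) + (j + 1) * a, by positivity,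
      fun c₀ hc₀ => ?_⟩
    have hp : 0 < c₀ ^ c := Real.rpow_pos_of_pos hc₀ c
    by_cases h : 2 * ((j : ℝ) + 1) * c₀ ≤ 1
    · have h1 := hM c₀ hc₀
      have h2 := hM (2 * c₀) (by positivity)
      have h3 := hC (2 * ((j : ℝ) + 1) * c₀) (by positivity) h
      have h4 := ENB_succ (j := j) (by positivity) (by positivity) h1 h2 h3
      refine h4.mono ?_
      rw [Real.mul_rpow (by norm_num) hc₀.le, Real.mul_rpow hj.le hc₀.le, ← ha]
      have h5 : 0 ≤ (j + 1) * a * c₀ ^ c := by positivity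
      nlinarith
    · push Not at h
      have h1 := ENB_trivial c₀ (j + 1)
      refine h1.mono ?_
      have h2 : 1 ≤ a * c₀ ^ c := by
        rw [ha, ← Real.mul_rpow hj.le hc₀.le]
        exact Real.one_le_rpow h.le hc0.le
      push_cast
      have h3 : 0 ≤ (M + 2 * (M * 2 ^ c) + (j + 2) * (C * a)) * c₀ ^ c := by positivity
      have h4 : ((j : ℝ) + 1) * 1 ≤ (j + 1) * (a * c₀ ^ c) :=
        mul_le_mul_of_nonneg_left h2 (by positivity)
      nlinarith

end Pool.Agent.Helper15.BP
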