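import Pool.Agent.Helper5.P2.EN
import Pool.Agent.Helper92.BQ.Defs

/-!
# LEME and ENCHAIN of `Helper92/BQ/Defs.lean`
-/

set_option autoImplicit false

namespace Pool.Agent.Helper5.P2

open Finset Pool.Agent.Helper15.BP Pool.Agent.Helper92.BQ Fam

theorem Gf_eq {G : Type} [AddCommGroup G] (A : Fam G) (j : ℕ) : Gf A j = A.chG j := by
  induction j with
  | zero => rfl
  | succ j ih =>
    show A.fib (Gf A j) = A.fib (A.chG j)
    rw [ih]

theorem EN_eq {G : Type} [AddCommGroup G] (A : Fam G) (N : ℕ) :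
    Pool.Agent.Helper92.BQ.EN A N = A.EN (N - 1) := by
  unfold Pool.Agent.Helper92.BQ.EN
  generalize N - 1 = n
  induction n with
  | zero => rw [Finset.sum_range_zero]; rfl
  | succ n ih =>
    rw [Finset.sum_range_succ, ih, Fam.EN_succ, Gf_eq, Fam.D_add_comm]

theorem LE_iff (N : ℕ) (c δ : ℝ) :
    Pool.Agent.Helper92.BQ.LE N c δ ↔ ENB c δ (N - 1) := by
  unfold Pool.Agent.Helper92.BQ.LE ENB
  simp only [EN_eq]

theorem ENB_anti {c c' e : ℝ} {j : ℕ} (h : ENB c e j) (hc : c' ≤ c) : ENB c' e j := by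
  intro G _ _ h2 A hA
  exact h G h2 A fun K => (hA K).trans (mul_le_mul_of_nonneg_right hc (log_index_nn K))

theorem contr_anti {k k' σ : ℝ} (h : Contr k σ) (hk : k' ≤ k) : Contr k' σ := by
  intro G _ _ h2 A hA
  exact h G h2 A fun K => (hA K).trans (mul_le_mul_of_nonneg_right hk (log_index_nn K))

theorem exists_ENB (hC : ∀ σ : ℝ, 0 < σ → ∃ k : ℝ, 0 < k ∧ Contr k σ) (j : ℕ) :
    ∀ δ : ℝ, 0 < δ → ∃ c : ℝ, 0 < c ∧ c ≤ 1 ∧ ENB c δ j := by
  induction j with
  | zero =>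
    intro δ hδ
    exact ⟨1, one_pos, le_rfl, (ENB_zero 1).mono hδ.le⟩
  | succ j ih =>
    intro δ hδ
    obtain ⟨c1, h1, h1', h2⟩ := ih (δ / 4) (by positivity)
    have hj : (0 : ℝ) < (j : ℝ) + 2 := by positivity
    have hj1 : (0 : ℝ) < 2 * ((j : ℝ) + 1) := by positivity
    obtain ⟨k, hk, hk'⟩ := hC (δ / (4 * (j + 2))) (by positivity)
    set c : ℝ := min (c1 / 2) (k / (2 * ((j : ℝ) + 1))) with hc
    have hc0 : 0 < c := lt_min (by positivity) (by positivity)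
    have hc1 : c ≤ c1 / 2 := min_le_left _ _
    have hc2 : c ≤ k / (2 * ((j : ℝ) + 1)) := min_le_right _ _
    refine ⟨c, hc0, by linarith, ?_⟩
    have h3 : 2 * ((j : ℝ) + 1) * c ≤ k := by
      rw [le_div_iff₀ hj1] at hc2
      linarith
    have h4 := ENB_succ (c₀ := c) (e := δ / 4) (e' := δ / 4) (s := δ / (4 * (j + 2))) (j := j)
      (by positivity) (by positivity) (ENB_anti h2 (by linarith)) (ENB_anti h2 (by linarith))
      (contr_anti hk' h3)
    refine h4.mono ?_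
    have h5 : ((j : ℝ) + 2) * (δ / (4 * (j + 2))) = δ / 4 := by
      field_simp
    rw [h5]
    linarith

/-- **Lemma E** in the form of `Helper92/BQ/Defs.lean` -/
theorem leme : LEME := by
  intro hC N δ hδ
  obtain ⟨c, h1, h2, h3⟩ := exists_ENB hC (N - 1) δ hδ
  exact ⟨c, h1, h2, (LE_iff N c δ).2 h3⟩

/-- **the chain inequality at a law** -/
theorem enchain : ENCHAIN := by
  intro G _ _ h2 N c δ hc hδ hLE p hp H hH
  have h0 : ENL p N = (S5.ofLaw p hp).EN (N - 1) := by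
    unfold ENL
    rw [dif_pos hp, EN_eq]
  set A := S5.ofLaw p hp with hA
  have h3 := Fam.EN_le A H (N - 1)
  have h4 := (LE_iff N c δ).1 hLE H (exp_two_sub h2 H) (A.resV H) (fun L => by
    rw [Fam.resV_D, S5.D_ofLaw, S5.D_ofLaw]
    have h1 := hH (L.map H.subtype) (Fam.map_subtype_le H L)
    have h5 := Fam.log_index_map H L
    rw [h5] at h1
    linarith)
  rw [Fam.resV_D_bot, S5.D_ofLaw, S5.D_ofLaw] at h4
  rw [S5.D_ofLaw] at h3
  have h5 : 0 ≤ δ * DL p H := mul_nonneg hδ (S5.DL_nonneg hp H)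
  have h6 : ((N - 1 : ℕ) : ℝ) * DL p H ≤ N * DL p H := by
    refine mul_le_mul_of_nonneg_right ?_ (S5.DL_nonneg hp H)
    exact_mod_cast Nat.sub_le N 1
  rw [h0]
  have h7 : δ * (DL p ⊥ - DL p H) = δ * DL p ⊥ - δ * DL p H := by ring
  rw [h7] at h4
  linarith

end Pool.Agent.Helper5.P2
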